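import Mathlib
import Pool.Agent.Helper134_AS.CompPlane

/-!
# The area of the non-hyperbolic parameters in the families `P (z ^ n * A z) + t`
-/

set_option autoImplicit false

open Polynomial Filter Topology MeasureTheory

namespace Pool.Agent.Results.MP_28f8a1_an.AreaInCompositions

/-- The polynomial as a self-map of the plane. -/
def map (T : ℂ[X]) : ℂ → ℂ := fun w : ℂ => T.eval w

/-- The orbit of `z` escapes to infinity. -/
def Escapes (T : ℂ[X]) (z : ℂ) : Prop :=
  Tendsto (fun k : ℕ => ‖(map T)^[k] z‖) atTop atTop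

/-- The orbit of `z` is attracted by a sink (attracting periodic point) of `T`. -/
def Attracted (T : ℂ[X]) (z : ℂ) : Prop :=
  ∃ p : ℕ, 0 < p ∧ ∃ x : ℂ, (map T)^[p] x = x ∧ ‖deriv ((map T)^[p]) x‖ < 1 ∧
    Tendsto (fun k : ℕ => (map T)^[p * k] z) atTop (𝓝 x)

/-- `T` is hyperbolic: every critical point escapes or is attracted by a sink. -/
def Hyperbolic (T : ℂ[X]) : Prop :=
  ∀ c : ℂ, (derivative T).eval c = 0 → Escapes T c ∨ Attracted T c

/-- The parameters under consideration: the `t` in the disc of radius `M` for which `|P(0) + t|`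
differs from `1` by at least `κ`. -/
def Params (P : ℂ[X]) (M κ : ℝ) : Set ℂ := {t | ‖t‖ ≤ M ∧ κ ≤ |‖P.eval 0 + t‖ - 1|}

/-- Let `P` be a nonconstant polynomial, `A` a nonzero polynomial with all roots in the open unit
disc, and let `m ≥ 2` be such that every critical point of `P` has local degree at most `m` (that
is, its multiplicity as a zero of `P'` is less than `m`). Let `T_t (z) = P (z ^ n * A z) + t`. Then
there is a constant `K` such that for all large `n`

(1) in every disc of radius `1 / n` the parameters `t` for which `T_t` is not hyperbolic have area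
at most `K n ^ (- 2 m / (m - 1))`;

(2) altogether they have area at most `K n ^ (- (m + 1) / (m - 1))`;

(3) every parameter is within `K n ^ (- m / (m - 1))` of some `t'` for which `T_{t'}` is
hyperbolic. -/
theorem result (P A : ℂ[X]) (hP : 0 < P.natDegree) (hA : A ≠ 0)
    (hroot : ∀ a : ℂ, A.eval a = 0 → ‖a‖ < 1) (m : ℕ) (hm2 : 2 ≤ m)
    (hm : ∀ y : ℂ, (derivative P).eval y = 0 → (derivative P).rootMultiplicity y < m)
    (M κ : ℝ) (hκ : 0 < κ) :
    ∃ K : ℝ, 0 < K ∧ ∃ n₀ : ℕ, ∀ n : ℕ, n₀ ≤ n →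
      (∀ t₀ : ℂ, volume {t ∈ Params P M κ | ‖t - t₀‖ ≤ 1 / n ∧
        ¬ Hyperbolic (P.comp (X ^ n * A) + C t)} ≤
          ENNReal.ofReal (K * (n : ℝ) ^ (-(2 * (m : ℝ) / ((m : ℝ) - 1))))) ∧
      volume {t ∈ Params P M κ | ¬ Hyperbolic (P.comp (X ^ n * A) + C t)} ≤
          ENNReal.ofReal (K * (n : ℝ) ^ (-(((m : ℝ) + 1) / ((m : ℝ) - 1)))) ∧
      ∀ t ∈ Params P M κ, ∃ t' : ℂ,
        ‖t' - t‖ ≤ K * (n : ℝ) ^ (-((m : ℝ) / ((m : ℝ) - 1))) ∧
        Hyperbolic (P.comp (X ^ n * A) + C t') := by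
  have key : ∀ T : ℂ[X], Pool.Agent.H113R3.DH.Hyp T → Hyperbolic T := by
    intro T hT c hc
    rcases hT c hc with h | ⟨x, h1, h2, h3⟩
    · exact Or.inl h
    · refine Or.inr ⟨1, one_pos, x, h1, ?_, ?_⟩
      · rw [Function.iterate_one]; exact h2
      · simp only [one_mul]; exact h3
  obtain ⟨K, hK, n₀, h⟩ := Pool.Agent.Helper134.AS.main_comp (M := max M 0) (κ := κ) hP hA hroot hm2
    hm (le_max_right _ _) hκ
  refine ⟨K, hK, n₀, fun n hn => ?_⟩
  obtain ⟨h1, h2, h3⟩ := h n hn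
  refine ⟨fun t₀ => ?_, ?_, ?_⟩
  · refine (measure_mono ?_).trans (h1 t₀)
    rintro t ⟨⟨ht1, ht2⟩, ht3, ht4⟩
    exact ⟨ht3, ht1.trans (le_max_left _ _), ht2, fun hh => ht4 (key _ hh)⟩
  · refine (measure_mono ?_).trans h2
    rintro t ⟨⟨ht1, ht2⟩, ht4⟩
    exact ⟨ht1.trans (le_max_left _ _), ht2, fun hh => ht4 (key _ hh)⟩
  · rintro t ⟨ht1, ht2⟩
    obtain ⟨t', h4, h5⟩ := h3 t (ht1.trans (le_max_left _ _)) ht2
    exact ⟨t', h4, key _ h5⟩

end Pool.Agent.Results.MP_28f8a1_an.AreaInCompositions
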