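import Mathlib
import Pool.Agent.H363Roots.PWinMain

/-!
# Polynomials with independent roots of arbitrary laws

The roots are independent random variables in a disc whose laws satisfy a Frostman condition (they
need neither densities nor be identical); `V` is the mean of `log |T|`. Outside an event of
probability at most `K N ^ k e ^ (- c Λ ^ 2 / (N + Λ))` all the critical points of all the
polynomials `α T + t` with `V + log |α| ≥ Λ` on the disc escape, and every `α T + t` with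
`V + log |α| ≤ - Λ` on the disc has an attracting fixed point which attracts all its critical
points.
-/

set_option autoImplicit false

open Polynomial Filter Topology MeasureTheory ProbabilityTheory

namespace Pool.Agent.Results.MP_28f8a1_an.IndependentRoots

/-- The polynomial as a self-map of the plane. -/
def map (T : ℂ[X]) : ℂ → ℂ := fun w : ℂ => T.eval w

/-- The orbit of `z` escapes to infinity. -/
def Escapes (T : ℂ[X]) (z : ℂ) : Prop :=
  Tendsto (fun k : ℕ => ‖(map T)^[k] z‖) atTop atTop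

/-- Every critical point of `T` escapes (in particular `T` is hyperbolic). -/
def AllEscape (T : ℂ[X]) : Prop :=
  ∀ c : ℂ, (derivative T).eval c = 0 → Escapes T c

/-- `T` has an attracting fixed point to which every critical point tends (in particular `T` is
hyperbolic). -/
def OneSink (T : ℂ[X]) : Prop :=
  ∃ x : ℂ, T.eval x = x ∧ ‖(derivative T).eval x‖ < 1 ∧
    ∀ c : ℂ, (derivative T).eval c = 0 → Tendsto (fun k : ℕ => (map T)^[k] c) atTop (𝓝 x)

/-- The monic polynomial with roots `z i`. -/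
noncomputable def withRoots {N : ℕ} (z : Fin N → ℂ) : ℂ[X] := ∏ i, (X - C (z i))

/-- The `Z i` are independent random variables on the probability space `(Ω, P)` with values in the
disc of radius `M`, and every disc of radius `r` has probability at most `B r ^ s` for each of
them. -/
def Roots {Ω ι : Type} [MeasurableSpace Ω] (P : Measure Ω) (M s B : ℝ) (Z : ι → Ω → ℂ) : Prop :=
  IsProbabilityMeasure P ∧ (∀ i, Measurable (Z i)) ∧ iIndepFun Z P ∧
    (∀ i, ∀ᵐ ω ∂P, ‖Z i ω‖ ≤ M) ∧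
    ∀ (i : ι) (z : ℂ) (r : ℝ), 0 < r → P {ω | ‖Z i ω - z‖ ≤ r} ≤ ENNReal.ofReal (B * r ^ s)

/-- The mean of `log |T z|`, where `T` is the monic polynomial with roots `Z i`. -/
noncomputable def meanLog {Ω : Type} [MeasurableSpace Ω] (P : Measure Ω) {N : ℕ}
    (Z : Fin N → Ω → ℂ) (z : ℂ) : ℝ := ∑ i, ∫ ω, Real.log ‖z - Z i ω‖ ∂P

/-- For all `α ≠ 0` and `t`: if `V + log |α| ≥ Λ` on the disc of radius `M` and
`|t| ≤ e ^ (Λ / 4)` then all critical points of `α T + t` escape; if `V + log |α| ≤ -Λ` on the disc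
and `|t| ≤ M - e ^ (-Λ / 4)` then `α T + t` has an attracting fixed point which attracts them. -/
def Dichotomy (V : ℂ → ℝ) (M Λ : ℝ) (T : ℂ[X]) : Prop :=
  ∀ α t : ℂ, α ≠ 0 →
    ((∀ z : ℂ, ‖z‖ ≤ M → Λ ≤ V z + Real.log ‖α‖) → ‖t‖ ≤ Real.exp (Λ / 4) →
      AllEscape (C α * T + C t)) ∧
    ((∀ z : ℂ, ‖z‖ ≤ M → V z + Real.log ‖α‖ ≤ -Λ) → ‖t‖ ≤ M - Real.exp (-(Λ / 4)) →
      OneSink (C α * T + C t))

theorem frost_two {s B : ℝ} {Ω : Type} [MeasurableSpace Ω] {P : Measure Ω}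
    [IsProbabilityMeasure P] {X : Ω → ℝ} (hs : 0 < s)
    (hB : ∀ r : ℝ, 0 < r → P {ω | X ω ≤ r} ≤ ENNReal.ofReal (B * r ^ s)) {r : ℝ} (hr : 0 < r) :
    P {ω | X ω ≤ r} ≤ ENNReal.ofReal (max B 1 * r ^ (min s 2)) := by
  rcases le_or_gt r 1 with hr1 | hr1
  · refine (hB r hr).trans (ENNReal.ofReal_le_ofReal ?_)
    have h1 : r ^ s ≤ r ^ (min s 2) := Real.rpow_le_rpow_of_exponent_ge hr hr1 (min_le_left _ _)
    calc B * r ^ s ≤ max B 1 * r ^ s := by gcongr; exact le_max_left _ _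
      _ ≤ max B 1 * r ^ (min s 2) := by
        have : 0 ≤ max B 1 := le_trans (by norm_num) (le_max_right _ _)
        gcongr
  · have h2 : (1 : ℝ) ≤ max B 1 * r ^ (min s 2) := by
      have h3 : (1 : ℝ) ≤ r ^ (min s 2) :=
        Real.one_le_rpow hr1.le (lt_min hs (by norm_num)).le
      calc (1 : ℝ) = 1 * 1 := by norm_num
        _ ≤ max B 1 * r ^ (min s 2) := by
          gcongr
          exact le_max_right _ _
    calc P {ω | X ω ≤ r} ≤ 1 := prob_le_one
      _ = ENNReal.ofReal 1 := ENNReal.ofReal_one.symm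
      _ ≤ _ := ENNReal.ofReal_le_ofReal h2

theorem main (M s B : ℝ) (hs : 0 < s) :
    ∃ (K c : ℝ) (k : ℕ), 0 < K ∧ 0 < c ∧
      ∀ (Ω : Type) [MeasurableSpace Ω] (P : Measure Ω) (N : ℕ) (Z : Fin N → Ω → ℂ), 1 ≤ N →
        Roots P M s B Z → ∀ Λ : ℝ, 0 < Λ →
          P {ω | ¬ Dichotomy (meanLog P Z) M Λ (withRoots fun i => Z i ω)} ≤
            ENNReal.ofReal (K * N ^ k * Real.exp (-(c * Λ ^ 2 / (N + Λ)))) := by
  rcases lt_or_ge M 0 with hM0 | hM0
  · refine ⟨1, 1, 0, by norm_num, by norm_num, ?_⟩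
    intro Ω _ P N Z hN hR
    obtain ⟨hP, hZ, hind, hM, hB⟩ := hR
    exfalso
    obtain ⟨ω, hω⟩ := (hM ⟨0, hN⟩).exists
    have := norm_nonneg (Z ⟨0, hN⟩ ω)
    linarith
  · obtain ⟨K, c, k, hK, hc, h⟩ := Pool.Agent.H363Roots.mainP0 M (min s 2) (max B 1)
      hM0 (le_trans (by norm_num) (le_max_right _ _)) (lt_min hs (by norm_num)) (min_le_right _ _)
    refine ⟨K, c, k, hK, hc, ?_⟩
    intro Ω _ P N Z hN hR Λ hΛ
    obtain ⟨hP, hZ, hind, hM, hB⟩ := hR
    exact h Ω P N Z (meanLog P Z) (fun z => rfl) hN hZ hind hM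
      (fun i z r hr => frost_two hs (hB i z) hr) Λ hΛ

/-- Borel and Cantelli. -/
theorem ae_of_bound {Ω : Type} [MeasurableSpace Ω] {P : Measure Ω}
    {E : ℕ → Ω → Prop} {b : ℕ → ℝ} (hb0 : ∀ N, 0 ≤ b N) (hb : Summable b)
    (h : ∀ᶠ N in atTop, P {ω | ¬ E N ω} ≤ ENNReal.ofReal (b N)) :
    ∀ᵐ ω ∂P, ∀ᶠ N in atTop, E N ω := by
  obtain ⟨N0, hN0⟩ := eventually_atTop.mp h
  have h1 : ∀ᵐ ω ∂P, ∀ᶠ N in atTop, ω ∉ {ω | ¬ E (N + N0) ω} := by
    apply ae_eventually_notMem
    refine ne_top_of_le_ne_top ?_ (ENNReal.tsum_le_tsum fun N => hN0 (N + N0) (by omega))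
    rw [← ENNReal.ofReal_tsum_of_nonneg (fun N => hb0 _) ((summable_nat_add_iff N0).mpr hb)]
    exact ENNReal.ofReal_ne_top
  filter_upwards [h1] with ω hω
  have h2 : ∀ᶠ N in atTop, E (N + N0) ω := by
    filter_upwards [hω] with N hN
    exact not_not.mp hN
  obtain ⟨N1, hN1⟩ := eventually_atTop.mp h2
  refine eventually_atTop.mpr ⟨N1 + N0, fun N hN => ?_⟩
  have := hN1 (N - N0) (by omega)
  rwa [Nat.sub_add_cancel (by omega)] at this

theorem ev_le {C : ℝ} : ∀ᶠ N : ℕ in atTop, C * Real.sqrt (N * Real.log N) ≤ N := by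
  have h1 : Tendsto (fun x : ℝ => Real.log x / x) atTop (𝓝 0) := by
    have := Real.isLittleO_log_id_atTop.tendsto_div_nhds_zero
    exact this
  have h2 := (h1.comp tendsto_natCast_atTop_atTop).const_mul (C ^ 2)
  rw [mul_zero] at h2
  have h3 := h2.eventually_le_const (by norm_num : (0 : ℝ) < 1)
  filter_upwards [h3, eventually_ge_atTop 1] with N hN hN1
  have hN0 : (0 : ℝ) < N := by exact_mod_cast hN1
  have hN1' : (1 : ℝ) ≤ N := by exact_mod_cast hN1
  have hlog : 0 ≤ Real.log N := Real.log_nonneg hN1'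
  simp only [Function.comp_apply] at hN
  rcases le_or_gt C 0 with hC | hC
  · have : C * Real.sqrt (N * Real.log N) ≤ 0 :=
      mul_nonpos_of_nonpos_of_nonneg hC (Real.sqrt_nonneg _)
    linarith
  · have h4 : C * Real.sqrt (N * Real.log N) = Real.sqrt (C ^ 2 * (N * Real.log N)) := by
      rw [Real.sqrt_mul (sq_nonneg C), Real.sqrt_sq hC.le]
    rw [h4]
    refine Real.sqrt_le_iff.mpr ⟨hN0.le, ?_⟩
    have h5 : C ^ 2 * (Real.log N / N) * (N : ℝ) ^ 2 ≤ 1 * (N : ℝ) ^ 2 := by gcongr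
    have h6 : C ^ 2 * (N * Real.log N) = C ^ 2 * (Real.log N / N) * (N : ℝ) ^ 2 := by field_simp
    rw [h6]
    linarith

/-- The exponent is increasing in `Λ`. -/
theorem expo_mono {n y l : ℝ} (hn : 0 < n) (hy : 0 < y) (hyn : y ≤ n) (hyl : y ≤ l) :
    y ^ 2 / (2 * n) ≤ l ^ 2 / (n + l) := by
  have hl : 0 < l := hy.trans_le hyl
  rw [div_le_div_iff₀ (by positivity) (by positivity)]
  have h1 : y ^ 2 * (n + l) ≤ l ^ 2 * (n + y) := by
    have h2 : 0 ≤ (l - y) := by linarith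
    nlinarith [mul_nonneg h2 (mul_pos hy hl).le, mul_nonneg h2 hn.le,
      mul_nonneg (mul_nonneg h2 hn.le) (add_pos hy hl).le]
  have h3 : l ^ 2 * (n + y) ≤ l ^ 2 * (2 * n) := by
    have : n + y ≤ 2 * n := by linarith
    gcongr
  linarith

/-- Let `s > 0` and let `M`, `B` be real. There are `K, c, C > 0` and `k` with the following
properties.
(1) For all `N ≥ 1`, all independent random variables `Z 0, …, Z (N - 1)` with `|Z i| ≤ M` and
`P (|Z i - z| ≤ r) ≤ B r ^ s` for all `z` and `r > 0`, and all `Λ > 0`, let `T` be the monic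
polynomial with the roots `Z i` and `V` the mean of `log |T|`. Outside an event of probability at
most `K N ^ k e ^ (- c Λ ^ 2 / (N + Λ))`, for all `α ≠ 0` and `t`: if `V + log |α| ≥ Λ` on the disc
`|z| ≤ M` and `|t| ≤ e ^ (Λ / 4)` then all the critical points of `α T + t` escape; if
`V + log |α| ≤ -Λ` on the disc and `|t| ≤ M - e ^ (-Λ / 4)` then `α T + t` has an attracting fixed
point to which all its critical points tend.
(2) For an infinite sequence `Z` of such random variables and numbers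
`Λ N ≥ C √(N log N)`, almost surely this holds with `Λ = Λ N` for all but finitely many `N`. -/
theorem result :
    ∀ M s B : ℝ, 0 < s → ∃ (K c C₀ : ℝ) (k : ℕ), 0 < K ∧ 0 < c ∧ 0 < C₀ ∧
      (∀ (Ω : Type) [MeasurableSpace Ω] (P : Measure Ω) (N : ℕ) (Z : Fin N → Ω → ℂ), 1 ≤ N →
        Roots P M s B Z → ∀ Λ : ℝ, 0 < Λ →
          P {ω | ¬ Dichotomy (meanLog P Z) M Λ (withRoots fun i => Z i ω)} ≤
            ENNReal.ofReal (K * N ^ k * Real.exp (-(c * Λ ^ 2 / (N + Λ))))) ∧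
      ∀ (Ω : Type) [MeasurableSpace Ω] (P : Measure Ω) (Z : ℕ → Ω → ℂ), Roots P M s B Z →
        ∀ Λ : ℕ → ℝ, (∀ᶠ N : ℕ in atTop, C₀ * Real.sqrt (N * Real.log N) ≤ Λ N) →
        ∀ᵐ ω ∂P, ∀ᶠ N : ℕ in atTop,
          Dichotomy (meanLog P fun i : Fin N => Z i) M (Λ N) (withRoots fun i : Fin N => Z i ω) := by
  intro M s B hs
  obtain ⟨K, c, k, hK, hc, h⟩ := main M s B hs
  refine ⟨K, c, Real.sqrt (2 * (k + 2) / c), k, hK, hc, by positivity, h, ?_⟩
  intro Ω _ P Z hR Λ hΛ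
  have hR' : ∀ N : ℕ, Roots P M s B (fun i : Fin N => Z i) := by
    intro N
    obtain ⟨hP, hZ, hind, hM, hB⟩ := hR
    exact ⟨hP, fun i => hZ i, hind.precomp (g := fun i : Fin N => (i : ℕ))
      (fun a b hab => Fin.ext hab), fun i => hM i, fun i => hB i⟩
  refine ae_of_bound (b := fun N : ℕ => K * (1 / (N : ℝ) ^ 2)) (fun N => by positivity)
    ((Real.summable_one_div_nat_pow.mpr (by norm_num)).mul_left K) ?_
  filter_upwards [eventually_ge_atTop 2, ev_le (C := Real.sqrt (2 * (k + 2) / c)), hΛ]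
    with N hN2 hle hΛN
  have hN1 : 1 ≤ N := by omega
  have hN2' : (2 : ℝ) ≤ N := by exact_mod_cast hN2
  have hN0 : (0 : ℝ) < N := by linarith
  have hlog : 0 < Real.log N := Real.log_pos (by linarith)
  set y : ℝ := Real.sqrt (2 * (k + 2) / c) * Real.sqrt (N * Real.log N) with hy
  have hy0 : 0 < y := by positivity
  have hΛ0 : 0 < Λ N := hy0.trans_le hΛN
  refine (h Ω P N (fun i : Fin N => Z i) hN1 (hR' N) (Λ N) hΛ0).trans
    (ENNReal.ofReal_le_ofReal ?_)
  have h2 : c * (y ^ 2 / (2 * N)) = (k + 2) * Real.log N := by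
    rw [hy, mul_pow, Real.sq_sqrt (by positivity), Real.sq_sqrt (by positivity)]
    field_simp
  have h3 : Real.exp (-((k + 2) * Real.log N)) = 1 / (N : ℝ) ^ (k + 2) := by
    rw [Real.exp_neg, one_div]
    congr 1
    have h4 : ((k : ℝ) + 2) * Real.log N = ((k + 2 : ℕ) : ℝ) * Real.log N := by push_cast; ring
    rw [h4, Real.exp_nat_mul, Real.exp_log hN0]
  have h5 : Real.exp (-(c * Λ N ^ 2 / (N + Λ N))) ≤ 1 / (N : ℝ) ^ (k + 2) := by
    rw [← h3, ← h2]
    refine Real.exp_le_exp.mpr ?_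
    have h6 := expo_mono hN0 hy0 hle hΛN
    have h7 : c * (y ^ 2 / (2 * N)) ≤ c * (Λ N ^ 2 / (N + Λ N)) := by gcongr
    rw [mul_div_assoc]
    linarith
  calc K * (N : ℝ) ^ k * Real.exp (-(c * Λ N ^ 2 / (N + Λ N))) ≤
      K * (N : ℝ) ^ k * (1 / (N : ℝ) ^ (k + 2)) := by gcongr
    _ = K * (1 / (N : ℝ) ^ 2) := by
      rw [pow_add]
      field_simp

end Pool.Agent.Results.MP_28f8a1_an.IndependentRoots
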