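import Mathlib
import Pool.Agent.H363Roots.MainC
import Pool.Agent.H363Roots.Iid

/-!
# Random roots: hyperbolicity when the zero level of the mean potential is noncritical

Let `T` be the monic polynomial with independent random roots `Z 0, …, Z (N - 1)`. The polynomials
`α T + t` with `|α|` about `e ^ (β N)` are hyperbolic, with exponentially high probability, as soon as
the level set `{mean of log |T z| = -β N}` stays away from the supports of the laws of the roots and
from the zeros of the mean of `T' / T`, and `t` is not on it.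
-/

set_option autoImplicit false

open Polynomial Filter Topology MeasureTheory ProbabilityTheory

namespace Pool.Agent.Results.MP_28f8a1_an.NoncriticalLevel

/-- The polynomial as a self-map of the plane. -/
def map (T : ℂ[X]) : ℂ → ℂ := fun w : ℂ => T.eval w

/-- The orbit of `z` escapes to infinity. -/
def Escapes (T : ℂ[X]) (z : ℂ) : Prop :=
  Tendsto (fun k : ℕ => ‖(map T)^[k] z‖) atTop atTop

/-- The orbit of `z` converges to an attracting fixed point of `T`. -/
def ToFixedSink (T : ℂ[X]) (z : ℂ) : Prop :=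
  ∃ x : ℂ, T.eval x = x ∧ ‖(derivative T).eval x‖ < 1 ∧
    Tendsto (fun k : ℕ => (map T)^[k] z) atTop (𝓝 x)

/-- Every critical point of `T` escapes or converges to an attracting fixed point (in particular
`T` is hyperbolic). -/
def Hyp (T : ℂ[X]) : Prop :=
  ∀ c : ℂ, (derivative T).eval c = 0 → Escapes T c ∨ ToFixedSink T c

/-- The monic polynomial with roots `z i`. -/
noncomputable def withRoots {N : ℕ} (z : Fin N → ℂ) : ℂ[X] := ∏ i, (X - C (z i))

/-- The `Z i` are independent random variables on the probability space `(Ω, P)` with values in the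
disc of radius `M`, and every disc of radius `r` has probability at most `B r ^ s` for each of
them. -/
def Roots {Ω ι : Type} [MeasurableSpace Ω] (P : Measure Ω) (M s B : ℝ) (Z : ι → Ω → ℂ) : Prop :=
  IsProbabilityMeasure P ∧ (∀ i, Measurable (Z i)) ∧ iIndepFun Z P ∧
    (∀ i, ∀ᵐ ω ∂P, ‖Z i ω‖ ≤ M) ∧
    ∀ (i : ι) (z : ℂ) (r : ℝ), 0 < r → P {ω | ‖Z i ω - z‖ ≤ r} ≤ ENNReal.ofReal (B * r ^ s)

/-- The mean of `log |T z|`, where `T` is the monic polynomial with roots `Z i`. -/
noncomputable def meanLog {Ω : Type} [MeasurableSpace Ω] (P : Measure Ω) {N : ℕ}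
    (Z : Fin N → Ω → ℂ) (z : ℂ) : ℝ := ∑ i, ∫ ω, Real.log ‖z - Z i ω‖ ∂P

/-- The mean of `T' z / T z`. -/
noncomputable def meanRatio {Ω : Type} [MeasurableSpace Ω] (P : Measure Ω) {N : ℕ}
    (Z : Fin N → Ω → ℂ) (z : ℂ) : ℂ := ∑ i, ∫ ω, (z - Z i ω)⁻¹ ∂P

/-- The logarithmic potential of a law. -/
noncomputable def pot (μ : Measure ℂ) (z : ℂ) : ℝ := ∫ w, Real.log ‖z - w‖ ∂μ

/-- The Cauchy transform of a law. -/
noncomputable def cauchy (μ : Measure ℂ) (z : ℂ) : ℂ := ∫ w, (z - w)⁻¹ ∂μ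

/-- All the polynomials `α T + t` with `e ^ ((β - ρ) N) ≤ |α| ≤ e ^ ((β + ρ) N)` are hyperbolic,
where `T` has the roots `z i`. -/
def Window {N : ℕ} (β ρ : ℝ) (z : Fin N → ℂ) (t : ℂ) : Prop :=
  ∀ α : ℂ, Real.exp ((β - ρ) * N) ≤ ‖α‖ → ‖α‖ ≤ Real.exp ((β + ρ) * N) →
    Hyp (C α * withRoots z + C t)

theorem frost_two {s B : ℝ} {Ω : Type} [MeasurableSpace Ω] {P : Measure Ω}
    [IsProbabilityMeasure P] {X : Ω → ℝ} (hs : 0 < s)
    (hB : ∀ r : ℝ, 0 < r → P {ω | X ω ≤ r} ≤ ENNReal.ofReal (B * r ^ s)) {r : ℝ} (hr : 0 < r) :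
    P {ω | X ω ≤ r} ≤ ENNReal.ofReal (max B 1 * r ^ (min s 2)) := by
  rcases le_or_gt r 1 with hr1 | hr1
  · refine (hB r hr).trans (ENNReal.ofReal_le_ofReal ?_)
    have h1 : r ^ s ≤ r ^ (min s 2) := Real.rpow_le_rpow_of_exponent_ge hr hr1 (min_le_left _ _)
    calc B * r ^ s ≤ max B 1 * r ^ s := by gcongr; exact le_max_left _ _
      _ ≤ max B 1 * r ^ (min s 2) := by
        have : 0 ≤ max B 1 := le_trans (by norm_num) (le_max_right _ _)
        gcongr
  · have h2 : (1 : ℝ) ≤ max B 1 * r ^ (min s 2) := by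
      have h3 : (1 : ℝ) ≤ r ^ (min s 2) :=
        Real.one_le_rpow hr1.le (lt_min hs (by norm_num)).le
      calc (1 : ℝ) = 1 * 1 := by norm_num
        _ ≤ max B 1 * r ^ (min s 2) := by
          gcongr
          exact le_max_right _ _
    calc P {ω | X ω ≤ r} ≤ 1 := prob_le_one
      _ = ENNReal.ofReal 1 := ENNReal.ofReal_one.symm
      _ ≤ _ := ENNReal.ofReal_le_ofReal h2

/-- The statement for independent roots which need not be identically distributed. -/
def General : Prop :=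
  ∀ M τ s B β η : ℝ, 0 < s → 0 < η → ∃ K θ ρ : ℝ, 0 < K ∧ 0 < θ ∧ θ < 1 ∧ 0 < ρ ∧
    ∀ (Ω : Type) [MeasurableSpace Ω] (P : Measure Ω) (N : ℕ) (Z : Fin N → Ω → ℂ), 1 ≤ N →
      Roots P M s B Z →
      (∀ z : ℂ, ‖z‖ ≤ M → |meanLog P Z z + β * N| ≤ η * N →
        (∀ i, ∀ᵐ ω ∂P, η ≤ ‖z - Z i ω‖) ∧ η * N ≤ ‖meanRatio P Z z‖) →
      P {ω | ¬ ∀ t : ℂ, ‖t‖ ≤ τ → η * N ≤ |meanLog P Z t + β * N| →
        (∀ i, Real.exp (-ρ * N) ≤ ‖t - Z i ω‖) → Window β ρ (fun i => Z i ω) t} ≤
          ENNReal.ofReal (K * θ ^ N)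

/-- The statement for independent and identically distributed roots. -/
def Identical : Prop :=
  ∀ (μ : Measure ℂ) (M s B β : ℝ) (t : ℂ), IsProbabilityMeasure μ → 0 < s →
    (∀ᵐ w ∂μ, ‖w‖ ≤ M) →
    (∀ (z : ℂ) (r : ℝ), 0 < r → μ {w | ‖w - z‖ ≤ r} ≤ ENNReal.ofReal (B * r ^ s)) →
    (∀ z : ℂ, ‖z‖ ≤ M → pot μ z = -β →
      (∃ r : ℝ, 0 < r ∧ μ (Metric.ball z r) = 0) ∧ cauchy μ z ≠ 0) →
    pot μ t ≠ -β →
    ∃ K θ ρ : ℝ, 0 < K ∧ 0 < θ ∧ θ < 1 ∧ 0 < ρ ∧
      ∀ (Ω : Type) [MeasurableSpace Ω] (P : Measure Ω) (Z : ℕ → Ω → ℂ),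
        IsProbabilityMeasure P → (∀ i, Measurable (Z i)) → iIndepFun Z P →
        (∀ i, P.map (Z i) = μ) →
        (∀ N : ℕ, 1 ≤ N → P {ω | ¬ Window β ρ (fun i : Fin N => Z i ω) t} ≤
          ENNReal.ofReal (K * θ ^ N)) ∧
        ∀ᵐ ω ∂P, ∀ᶠ N : ℕ in atTop, Window β ρ (fun i : Fin N => Z i ω) t

theorem general : General := by
  intro M τ s B β η hs hη
  rcases lt_or_ge M 0 with hM0 | hM0
  · refine ⟨1, 1 / 2, 1, by norm_num, by norm_num, by norm_num, by norm_num, ?_⟩
    intro Ω _ P N Z hN hR _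
    obtain ⟨hP, hZ, hind, hM, hB⟩ := hR
    exfalso
    obtain ⟨ω, hω⟩ := (hM ⟨0, hN⟩).exists
    have := norm_nonneg (Z ⟨0, hN⟩ ω)
    linarith
  · obtain ⟨K, θ, ρ, hK, hθ0, hθ1, hρ0, h⟩ := Pool.Agent.H363Roots.mainC0 M (max τ 0) (min s 2)
      (max B 1) β η hM0 (le_max_right _ _) (le_trans (by norm_num) (le_max_right _ _))
      (lt_min hs (by norm_num)) (min_le_right _ _) hη
    refine ⟨K, θ, ρ, hK, hθ0, hθ1, hρ0, ?_⟩
    intro Ω _ P N Z hN hR hlev
    obtain ⟨hP, hZ, hind, hM, hB⟩ := hR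
    refine le_trans (measure_mono ?_) (h Ω P N Z hZ hind hM
      (fun i z r hr => frost_two hs (hB i z) hr) hlev)
    intro ω hω hgood
    apply hω
    intro t ht htV htz α hα hα' c hc
    exact hgood α t hα hα' (ht.trans (le_max_left _ _)) htV htz c hc

/-- `N q ^ N` is at most a constant times a larger geometric sequence. -/
theorem mul_geom (q : ℝ) (hq0 : 0 < q) (hq1 : q < 1) :
    ∃ K θ : ℝ, 0 < K ∧ 0 < θ ∧ θ < 1 ∧ ∀ N : ℕ, (N : ℝ) * q ^ N ≤ K * θ ^ N := by
  obtain ⟨θ, hθ0, hθ1⟩ := exists_between hq1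
  have hθpos : 0 < θ := hq0.trans hθ0
  have h1 : Tendsto (fun N : ℕ => (N : ℝ) * (q / θ) ^ N) atTop (𝓝 0) :=
    tendsto_self_mul_const_pow_of_lt_one (by positivity) ((div_lt_one hθpos).mpr hθ0)
  obtain ⟨K, hK⟩ := h1.bddAbove_range
  refine ⟨max K 1, θ, lt_max_of_lt_right one_pos, hθpos, hθ1, fun N => ?_⟩
  have h2 : (N : ℝ) * (q / θ) ^ N ≤ K := hK ⟨N, rfl⟩
  have h3 : (N : ℝ) * q ^ N = (N : ℝ) * (q / θ) ^ N * θ ^ N := by
    rw [div_pow]
    field_simp
  rw [h3]
  have : K ≤ max K 1 := le_max_left _ _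
  gcongr
  exact h2.trans this

/-- Borel and Cantelli. -/
theorem ae_of_bound {Ω : Type} [MeasurableSpace Ω] {P : Measure Ω} [IsProbabilityMeasure P]
    {E : ℕ → Ω → Prop} {K θ : ℝ} (hK : 0 < K) (hθ0 : 0 < θ) (hθ1 : θ < 1)
    (h : ∀ᶠ N in atTop, P {ω | ¬ E N ω} ≤ ENNReal.ofReal (K * θ ^ N)) :
    ∀ᵐ ω ∂P, ∀ᶠ N in atTop, E N ω := by
  obtain ⟨N0, hN0⟩ := eventually_atTop.mp h
  have h1 : ∀ᵐ ω ∂P, ∀ᶠ N in atTop, ω ∉ {ω | ¬ E (N + N0) ω} := by
    apply ae_eventually_notMem
    refine ne_top_of_le_ne_top ?_ (ENNReal.tsum_le_tsum fun N => hN0 (N + N0) (by omega))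
    have hsum : Summable fun N : ℕ => K * θ ^ (N + N0) := by
      have : Summable fun N : ℕ => K * θ ^ N :=
        (summable_geometric_of_lt_one hθ0.le hθ1).mul_left _
      exact (summable_nat_add_iff N0).mpr this
    rw [← ENNReal.ofReal_tsum_of_nonneg (fun N => by positivity) hsum]
    exact ENNReal.ofReal_ne_top
  filter_upwards [h1] with ω hω
  have h2 : ∀ᶠ N in atTop, E (N + N0) ω := by
    filter_upwards [hω] with N hN
    exact not_not.mp hN
  obtain ⟨N1, hN1⟩ := eventually_atTop.mp h2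
  refine eventually_atTop.mpr ⟨N1 + N0, fun N hN => ?_⟩
  have := hN1 (N - N0) (by omega)
  rwa [Nat.sub_add_cancel (by omega)] at this

theorem identical : Identical := by
  intro μ M s B β t hμ hs hM hB hlev ht
  have hBr : ∀ (z : ℂ) (r : ℝ), 0 < r →
      μ {w | ‖z - w‖ ≤ r} ≤ ENNReal.ofReal (max B 1 * r ^ (min s 2)) := by
    intro z r hr
    refine frost_two (X := fun w => ‖z - w‖) hs (fun r hr => ?_) hr
    refine le_trans (measure_mono ?_) (hB z r hr)
    intro w hw
    have h3 : ‖z - w‖ ≤ r := hw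
    show ‖w - z‖ ≤ r
    rwa [norm_sub_rev]
  obtain ⟨η, hη, hηt, hηlev⟩ := Pool.Agent.H363Roots.margin (β := β) (lt_min hs (by norm_num))
    (min_le_right s 2) (le_trans (by norm_num) (le_max_right B 1)) hM hBr hlev t ht
  obtain ⟨K, θ, ρ, hK, hθ0, hθ1, hρ0, h⟩ := general M ‖t‖ s B β η hs hη
  obtain ⟨K', θ', hK', hθ'0, hθ'1, h'⟩ := mul_geom (Real.exp (-(ρ * s))) (Real.exp_pos _)
    (by rw [Real.exp_lt_one_iff]; have : 0 < ρ * s := by positivity
        linarith)
  have hK2 : 0 < K + max B 1 * K' := by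
    have : 0 < max B 1 := lt_max_of_lt_right one_pos
    positivity
  have hθ2 : max θ θ' < 1 := max_lt hθ1 hθ'1
  have hθ20 : 0 < max θ θ' := lt_max_of_lt_left hθ0
  refine ⟨K + max B 1 * K', max θ θ', ρ, hK2, hθ20, hθ2, hρ0, ?_⟩
  intro Ω _ P Z hP hZ hind hlaw
  have hbound : ∀ N : ℕ, 1 ≤ N → P {ω | ¬ Window β ρ (fun i : Fin N => Z i ω) t} ≤
      ENNReal.ofReal ((K + max B 1 * K') * max θ θ' ^ N) := by
    intro N hN
    have hN0 : (0 : ℝ) < N := by exact_mod_cast hN
    have hBZ : ∀ (i : ℕ) (z : ℂ) (r : ℝ), 0 < r →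
        P {ω | ‖Z i ω - z‖ ≤ r} ≤ ENNReal.ofReal (B * r ^ s) := by
      intro i z r hr
      have h1 := hB z r hr
      have hms : MeasurableSet {w : ℂ | ‖w - z‖ ≤ r} :=
        measurableSet_le (measurable_id.sub measurable_const).norm measurable_const
      rw [← hlaw i, Measure.map_apply (hZ i) hms] at h1
      exact h1
    have hR : Roots P M s B (fun i : Fin N => Z i) := by
      refine ⟨hP, fun i => hZ i, hind.precomp (g := fun i : Fin N => (i : ℕ))
        (fun a b hab => Fin.ext hab), fun i => ?_, fun i => hBZ i⟩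
      have h1 := hM
      rw [← hlaw i] at h1
      exact ae_of_ae_map (hZ i).aemeasurable h1
    have hml : ∀ z : ℂ, meanLog P (fun i : Fin N => Z i) z = N * pot μ z := by
      intro z
      have h1 : ∀ i : Fin N, ∫ ω, Real.log ‖z - Z i ω‖ ∂P = pot μ z := by
        intro i
        rw [pot, ← hlaw i, integral_map (hZ i).aemeasurable]
        exact (Real.measurable_log.comp
          (measurable_const.sub measurable_id).norm).aestronglyMeasurable
      rw [meanLog, Finset.sum_congr rfl fun i _ => h1 i, Finset.sum_const, Finset.card_univ,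
        Fintype.card_fin, nsmul_eq_mul]
    have hmr : ∀ z : ℂ, meanRatio P (fun i : Fin N => Z i) z = N * cauchy μ z := by
      intro z
      have h1 : ∀ i : Fin N, ∫ ω, (z - Z i ω)⁻¹ ∂P = cauchy μ z := by
        intro i
        rw [cauchy, ← hlaw i, integral_map (hZ i).aemeasurable]
        exact (measurable_const.sub measurable_id).inv.aestronglyMeasurable
      rw [meanRatio, Finset.sum_congr rfl fun i _ => h1 i, Finset.sum_const, Finset.card_univ,
        Fintype.card_fin, nsmul_eq_mul]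
    have habs : ∀ z : ℂ, |meanLog P (fun i : Fin N => Z i) z + β * N| = |pot μ z + β| * N := by
      intro z
      rw [hml]
      have : (N : ℝ) * pot μ z + β * N = (pot μ z + β) * N := by ring
      rw [this, abs_mul, abs_of_pos hN0]
    have hlevel : ∀ z : ℂ, ‖z‖ ≤ M →
        |meanLog P (fun i : Fin N => Z i) z + β * N| ≤ η * N →
        (∀ i : Fin N, ∀ᵐ ω ∂P, η ≤ ‖z - Z i ω‖) ∧
          η * N ≤ ‖meanRatio P (fun i : Fin N => Z i) z‖ := by
      intro z hz hle
      rw [habs] at hle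
      obtain ⟨h1, h2⟩ := hηlev z hz (le_of_mul_le_mul_right hle hN0)
      refine ⟨fun i => ?_, ?_⟩
      · have h3 : ∀ᵐ w ∂μ, η ≤ ‖z - w‖ := by
          rw [ae_iff]
          refine measure_mono_null ?_ h1
          intro w hw
          have hw' : ¬ η ≤ ‖z - w‖ := hw
          rw [Metric.mem_ball, Complex.dist_eq, norm_sub_rev]
          exact not_le.mp hw'
        rw [← hlaw i] at h3
        exact ae_of_ae_map (hZ i).aemeasurable h3
      · rw [hmr, norm_mul, Complex.norm_natCast, mul_comm]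
        gcongr
        exact h2
    have hmain := h Ω P N (fun i : Fin N => Z i) hN hR hlevel
    have hsub : {ω | ¬ Window β ρ (fun i : Fin N => Z i ω) t} ⊆
        {ω | ¬ ∀ t' : ℂ, ‖t'‖ ≤ ‖t‖ →
          η * N ≤ |meanLog P (fun i : Fin N => Z i) t' + β * N| →
          (∀ i : Fin N, Real.exp (-ρ * N) ≤ ‖t' - Z i ω‖) →
            Window β ρ (fun i : Fin N => Z i ω) t'} ∪
        ⋃ i : Fin N, {ω | ‖Z i ω - t‖ ≤ Real.exp (-ρ * N)} := by
      intro ω hω
      by_contra hcon
      rw [Set.mem_union, not_or] at hcon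
      obtain ⟨hc1, hc2⟩ := hcon
      apply hω
      have hc1' := not_not.mp hc1
      refine hc1' t le_rfl ?_ ?_
      · rw [habs]
        gcongr
        exact hηt
      · intro i
        by_contra hlt
        apply hc2
        rw [Set.mem_iUnion]
        refine ⟨i, ?_⟩
        show ‖Z i ω - t‖ ≤ Real.exp (-ρ * N)
        rw [norm_sub_rev]
        exact (not_le.mp hlt).le
    refine (measure_mono hsub).trans ((measure_union_le _ _).trans ?_)
    have hunion : P (⋃ i : Fin N, {ω | ‖Z i ω - t‖ ≤ Real.exp (-ρ * N)}) ≤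
        ENNReal.ofReal (max B 1 * K' * θ' ^ N) := by
      calc P (⋃ i : Fin N, {ω | ‖Z i ω - t‖ ≤ Real.exp (-ρ * N)}) ≤
          ∑ i : Fin N, P {ω | ‖Z i ω - t‖ ≤ Real.exp (-ρ * N)} :=
            measure_iUnion_fintype_le _ _
        _ ≤ ∑ _i : Fin N, ENNReal.ofReal (B * (Real.exp (-ρ * N)) ^ s) :=
            Finset.sum_le_sum fun i _ => hBZ i t _ (Real.exp_pos _)
        _ = ENNReal.ofReal (N * (B * (Real.exp (-ρ * N)) ^ s)) := by
            rw [Finset.sum_const, Finset.card_univ, Fintype.card_fin, nsmul_eq_mul,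
              ENNReal.ofReal_mul (p := (N : ℝ)) (by positivity), ENNReal.ofReal_natCast]
        _ ≤ _ := by
            refine ENNReal.ofReal_le_ofReal ?_
            have e1 : (Real.exp (-ρ * N)) ^ s = (Real.exp (-(ρ * s))) ^ N := by
              rw [← Real.exp_mul, ← Real.exp_nat_mul]
              congr 1
              ring
            rw [e1]
            have e2 : 0 ≤ max B 1 := le_trans (by norm_num) (le_max_right _ _)
            calc (N : ℝ) * (B * (Real.exp (-(ρ * s))) ^ N) ≤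
                N * (max B 1 * (Real.exp (-(ρ * s))) ^ N) := by
                  gcongr
                  exact le_max_left _ _
              _ = max B 1 * (N * (Real.exp (-(ρ * s))) ^ N) := by ring
              _ ≤ max B 1 * (K' * θ' ^ N) := mul_le_mul_of_nonneg_left (h' N) e2
              _ = _ := by ring
    refine (add_le_add hmain hunion).trans ?_
    have e2 : 0 ≤ max B 1 := le_trans (by norm_num) (le_max_right _ _)
    rw [← ENNReal.ofReal_add (by positivity) (by positivity)]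
    refine ENNReal.ofReal_le_ofReal ?_
    have e3 : K * θ ^ N ≤ K * max θ θ' ^ N := by
      gcongr
      exact le_max_left _ _
    have e4 : max B 1 * K' * θ' ^ N ≤ max B 1 * K' * max θ θ' ^ N := by
      gcongr
      exact le_max_right _ _
    rw [add_mul]
    linarith
  refine ⟨hbound, ae_of_bound hK2 hθ20 hθ2 ?_⟩
  filter_upwards [eventually_ge_atTop 1] with N hN
  exact hbound N hN

/-- (1) Let `s, η > 0` and let `M, τ, B, β` be real. There are `K, ρ > 0` and `0 < θ < 1` such that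
the following holds for all `N ≥ 1` and all independent random variables `Z 0, …, Z (N - 1)` with
`|Z i| ≤ M` and `P (|Z i - z| ≤ r) ≤ B r ^ s` for all `z`, `r > 0`. Let `T` be the monic polynomial
with roots `Z i`, let `V z` be the mean of `log |T z|`, and suppose that every `z` with `|z| ≤ M` and
`|V z + β N| ≤ η N` has distance at least `η` from the values of the `Z i` (almost surely) and that
the mean of `T' z / T z` has modulus at least `η N` there. Then, outside an event of probability at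
most `K θ ^ N`, the polynomial `α T + t` is hyperbolic for all `α` with
`e ^ ((β - ρ) N) ≤ |α| ≤ e ^ ((β + ρ) N)` and all `|t| ≤ τ` with `|V t + β N| ≥ η N` and
`|t - Z i| ≥ e ^ (-ρ N)` for all `i`.
(2) Let `μ` be a probability law on the disc of radius `M` with `μ (|w - z| ≤ r) ≤ B r ^ s` for all
`z`, `r > 0`, let `U` be its logarithmic potential and `β` a real number such that no `z` with
`U z = -β` is in the support of `μ` or a zero of the Cauchy transform of `μ`, and let `U t ≠ -β`.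
There are `K, ρ > 0` and `0 < θ < 1` such that, for all independent `Z 0, Z 1, …` with law `μ`, the
polynomials `α ∏ (X - Z i) + t` (product over `i < N`) with
`e ^ ((β - ρ) N) ≤ |α| ≤ e ^ ((β + ρ) N)` are all hyperbolic with probability at least `1 - K θ ^ N`
for every `N ≥ 1`, and almost surely for all but finitely many `N`. -/
theorem result : General ∧ Identical := ⟨general, identical⟩

end Pool.Agent.Results.MP_28f8a1_an.NoncriticalLevel
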