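import Mathlib
import Pool.Agent.Helper134_PP.Total2

/-!
# Hyperbolicity in the families `P (z) ^ n + t`

Let `P` be a nonconstant polynomial without critical values on the unit circle. For large `n`, the `t`
with `|t| ≤ M` for which the polynomial `P ^ n + t` is not hyperbolic satisfy `1 / K ≤ n |P t| ^ n ≤ K n`,
i.e. they are in a neighbourhood of width `O (log n / n)` of the lemniscate `|P t| = 1`, and their area is
at most `K log log n / n`; every `t` is within `K min (1 / n, log n / (n ^ 2 |P t| ^ n))` of some hyperbolic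
`t'`, and in the disc of radius `1 / n` about `t` the non-hyperbolic parameters form a proportion of at
most `K log n / (n |P t| ^ n)`.

Proof. All the critical values are huge, or equal or exponentially close to `t`. If `n |P t| ^ n` is
small then there is a sink near `t`; if `|P t| ^ n` is large then `t` escapes; in between `T t` is at
the distance `|P t| ^ n` of `t`, and moving `t` a little one can put it to a place where `|P| ^ n` is
so small that `T (T t)` is very near to `t` and there is a sink of period two. The parameters for which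
`T t` is neither at such a place nor where `|P| ^ n` is large, are mapped to a thin strip by the nearly
affine function `log P (T_t (t))`.
-/

set_option autoImplicit false

open Polynomial Filter Topology MeasureTheory

namespace Pool.Agent.Results.MP_28f8a1_an.PowersPlusConstant

/-- The polynomial as a self-map of the plane. -/
def map (T : ℂ[X]) : ℂ → ℂ := fun w : ℂ => T.eval w

/-- The orbit of `z` escapes to infinity. -/
def Escapes (T : ℂ[X]) (z : ℂ) : Prop :=
  Tendsto (fun k : ℕ => ‖(map T)^[k] z‖) atTop atTop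

/-- The orbit of `z` is attracted by a sink (attracting periodic point) of `T`. -/
def Attracted (T : ℂ[X]) (z : ℂ) : Prop :=
  ∃ p : ℕ, 0 < p ∧ ∃ x : ℂ, (map T)^[p] x = x ∧ ‖deriv ((map T)^[p]) x‖ < 1 ∧
    Tendsto (fun k : ℕ => (map T)^[p * k] z) atTop (𝓝 x)

/-- `T` is hyperbolic: every critical point escapes or is attracted by a sink. -/
def Hyperbolic (T : ℂ[X]) : Prop :=
  ∀ c : ℂ, (derivative T).eval c = 0 → Escapes T c ∨ Attracted T c

/-- Let `P` be a nonconstant polynomial such that no critical value of `P` has modulus one, and let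
`M` be a real number. There are `K` and `n₀` such that for all `n ≥ n₀` the area of the set of the `t`
with `|t| ≤ M` for which `P ^ n + t` is not hyperbolic is at most `K log log n / n`, and for all `t` with
`|t| ≤ M`:

(1) if `P ^ n + t` is not hyperbolic, then `1 / K ≤ n |P t| ^ n` and `|P t| ^ n ≤ K`;

(2) there is `t'` such that `P ^ n + t'` is hyperbolic, `|t' - t| ≤ K / n` and
`|t' - t| |P t| ^ n ≤ K log n / n ^ 2`;

(3) the area of the set of the `t'` with `|t' - t| ≤ 1 / n` for which `P ^ n + t'` is not hyperbolic,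
times `|P t| ^ n`, is at most `K log n / n ^ 3`. -/
theorem result (P : ℂ[X]) (hP : 0 < P.natDegree)
    (hcrit : ∀ y : ℂ, (derivative P).eval y = 0 → ‖P.eval y‖ ≠ 1) (M : ℝ) :
    ∃ K : ℝ, 0 < K ∧ ∃ n₀ : ℕ, ∀ n : ℕ, n₀ ≤ n →
      volume {t : ℂ | ‖t‖ ≤ M ∧ ¬ Hyperbolic (P ^ n + C t)} ≤
        ENNReal.ofReal (K * Real.log (Real.log n) / n) ∧
      ∀ t : ℂ, ‖t‖ ≤ M →
      (¬ Hyperbolic (P ^ n + C t) → 1 / K ≤ n * ‖P.eval t‖ ^ n ∧ ‖P.eval t‖ ^ n ≤ K) ∧
      (∃ t' : ℂ, Hyperbolic (P ^ n + C t') ∧ ‖t' - t‖ ≤ K / n ∧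
        ‖t' - t‖ * ‖P.eval t‖ ^ n ≤ K * Real.log n / n ^ 2) ∧
      volume {t' : ℂ | ‖t' - t‖ ≤ 1 / n ∧ ¬ Hyperbolic (P ^ n + C t')} *
        ENNReal.ofReal (‖P.eval t‖ ^ n) ≤ ENNReal.ofReal (K * Real.log n / n ^ 3) := by
  have hmap : ∀ (n : ℕ) (t : ℂ), map (P ^ n + C t) = Pool.Agent.Helper134.PP.T P n t := by
    intro n t
    funext w
    simp [map, Pool.Agent.Helper134.PP.T]
  have key : ∀ (n : ℕ) (t : ℂ), Pool.Agent.Helper134.PP.HypT P n t → Hyperbolic (P ^ n + C t) := by
    intro n t h c hc
    have hc' : (n : ℂ) * (P.eval c) ^ (n - 1) * (derivative P).eval c = 0 := by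
      have h1 : (derivative (P ^ n + C t)).eval c = (n : ℂ) * (P.eval c) ^ (n - 1) * (derivative P).eval c := by
        rw [derivative_add, derivative_C, add_zero, derivative_pow]
        simp
      rw [← h1]
      exact hc
    rcases h c hc' with h2 | h2
    · left
      unfold Escapes
      rw [hmap]
      exact h2
    · right
      unfold Attracted
      rw [hmap]
      exact h2
  obtain ⟨K, hK, h⟩ := Pool.Agent.Helper134.PP.final2 hP hcrit (M := max M 0) (le_max_right _ _)
  obtain ⟨n₀, hn₀⟩ := eventually_atTop.1 h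
  refine ⟨K, hK, n₀, fun n hn => ?_⟩
  obtain ⟨h0, hn₁⟩ := hn₀ n hn
  refine ⟨?_, fun t ht => ?_⟩
  · rw [mul_div_assoc]
    refine (measure_mono ?_).trans h0
    rintro s ⟨hs1, hs2⟩
    exact ⟨hs1.trans (le_max_left _ _), fun hc => hs2 (key n s hc)⟩
  obtain ⟨h1, ⟨t', h2, h3, h4⟩, h5⟩ := hn₁ t (ht.trans (le_max_left _ _))
  refine ⟨fun hh => h1 fun hc => hh (key n t hc), ⟨t', key n t' h4, h2, h3⟩, le_trans ?_ h5⟩
  refine mul_le_mul_left (measure_mono ?_) _
  rintro s ⟨hs1, hs2⟩
  refine ⟨?_, fun hc => hs2 (key n s hc)⟩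
  rw [Metric.mem_closedBall, dist_eq_norm]
  exact hs1

end Pool.Agent.Results.MP_28f8a1_an.PowersPlusConstant
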